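import Pool.Agent.H5.PN.Jfr
import Pool.Agent.H3.D2G.RecG

/-!
# The two windows and the far digits from a record

`RecG.jf`, `RecG.farV`, `RecG.jetx`: `JfN`, `FarV`, `JetX` at the windows `t + vv q < t` of a record,
in any class `S₁` with the chain (for example a restricted class: `ChG.sub`).
-/

set_option autoImplicit false

namespace Pool.PKG

open Finset Real
open Pool.Agent.H49.Ent Pool.Agent.H32.Dense Pool.STK Pool.KA Pool.KSAT Pool.K2S Pool.PB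
open Pool.GEN Pool.S6C Pool.STAT Pool.CHT Pool.GRW Pool.ONE Pool.STA
open Pool.LA91 Pool.AJW

section

variable {m : ℕ} {S : PCl m} {al : ℝ} {g₀ : ℝ → ℝ} {P : List (Fin m) × Fin m → ℝ → ℝ → ℝ}
  {θ : ℝ} {P₂ : ℕ → List (Fin m) × Fin m → ℝ → ℝ → ℝ} {θ₂ Eb e₂ : ℕ → ℝ}
  {c : ℕ → Fin m} {Pt : ℝ → ℝ → ℝ} {rt : ℝ → ℝ} {h K₀ g : ℝ} {L T : ℕ → ℝ → ℝ → ℝ}
  {Sl : ℕ → ℝ} {κ : ℕ → Kg} {G : Set ℝ} {S₀ N : ℕ} {A V : ℕ → ℝ} {S₂ N' : ℕ} {V' : ℕ → ℝ}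
  {K' ε q t : ℝ}

/-- The levels of the places of slope one. -/
theorem RecG.dOne
    (R : RecG S al g₀ P θ P₂ θ₂ Eb e₂ c Pt rt h K₀ g L T Sl κ G S₀ N A V S₂ N' V' K' ε q t)
    {l : ℕ} (hl : l < m) (hκ : κ l = .one) (x : ℝ) (hx : |x - t| ≤ K' * q) :
    |L l x x - L l t t - (x - t)| ≤ ε * q := by
  have h1 := R.dL l hl x hx
  have h2 := R.kd l hl
  rw [hκ] at h2
  have h3 : Sl l = 1 := h2
  rwa [h3, one_mul] at h1

variable {S₁ : PCl m} {r K : ℕ} {vv X φ lam kf : ℝ}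

/-- **The numbers of the two windows.** -/
theorem RecG.jf
    (R : RecG S al g₀ P θ P₂ θ₂ Eb e₂ c Pt rt h K₀ g L T Sl κ G S₀ N A V S₂ N' V' K' ε q t)
    (hκ : ∀ l < r, κ l = .one) (hrm : r ≤ m) (U : JfU r K vv X φ lam kf) (hGt : t ∈ G)
    (hG : ∀ k ≤ r, t + jfV r vv X k * q ∈ G) (hK : -vv + 3 ^ r * X ≤ K') (hlam : lam ≤ K')
    (hε : 2 * ε ≤ φ) :
    JfN r (fun l x => L l x x) G (t + vv * q) t (X * q) (φ * q) (lam * q) (kf * q)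
      (fun i => t + jfV r vv X (i + 1) * q) K :=
  U.jf R.q0 R.t1 (fun l hl => R.dOne (hl.trans_le hrm) (hκ l hl)) hGt hG hK hlam hε

/-- **The far digits.** -/
theorem RecG.farV
    (R : RecG S al g₀ P θ P₂ θ₂ Eb e₂ c Pt rt h K₀ g L T Sl κ G S₀ N A V S₂ N' V' K' ε q t)
    (hκ : ∀ l < r, κ l = .one) (hrm : r ≤ m) (hch : ChG S₁ c (r + 1) (fun l x => L l x x) G)
    (U : JfU r K vv X φ lam kf) (hGt : t ∈ G)
    (hG : ∀ k ≤ r, t + jfV r vv X k * q ∈ G) (hK : -vv + 3 ^ r * X ≤ K') (hlam : lam ≤ K')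
    (hε : 2 * ε ≤ φ) {pf : ℕ → ℝ} (hpf : ∀ l < r, L l t t - φ * q ≤ pf l) :
    FarV S₁ c 0 r (fun i => t + jfV r vv X (i + 1) * q) (t + vv * q) t (lam * q) (φ * q)
      (fun i => L i (t + jfV r vv X (i + 1) * q) (t + jfV r vv X (i + 1) * q))
      (fun i => L i (t + vv * q) (t + vv * q)) (fun i => L i t t) pf
      (nX r (fun l x => L l x x) (t + vv * q) (X * q)) (fun l => aX r (X * q) l - 2 * (φ * q))
      (fun l => kf * q - 2 * (l + 1) * (φ * q)) (fun l j => L l t t + kf * q - (j : ℕ) * t) :=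
  U.far hch R.q0 R.t1 (fun l hl => R.dOne (hl.trans_le hrm) (hκ l hl)) hGt hG hK hlam hε hpf

/-- **The two windows**, for labels with exponents `E` of the gradients and `rd` of the radii. -/
theorem RecG.jetx
    (R : RecG S al g₀ P θ P₂ θ₂ Eb e₂ c Pt rt h K₀ g L T Sl κ G S₀ N A V S₂ N' V' K' ε q t)
    (hκ : ∀ l < r, κ l = .one) (hrm : r < m) (hch : ChG S₁ c (r + 1) (fun l x => L l x x) G)
    (U : JfU r K vv X φ lam kf) (hGt : t ∈ G)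
    (hG : ∀ k ≤ r, t + jfV r vv X k * q ∈ G) (hK : -vv + 3 ^ r * X ≤ K') (hlam : lam ≤ K')
    (hε : 2 * ε ≤ φ) {m₁ ρ : ℝ} {E rd : ℕ → ℝ} (hm : 3 ^ r * X * q < m₁) (hρ : ρ < 1)
    (hE : ∀ i ≤ r, 0 ≤ E i ∧ L i (t + vv * q) (t + vv * q) + E i + m₁ ≤ 1 ∧
      0 ≤ rd i ∧ rd i ≤ ρ) :
    ∃ g₁ : ℝ, 0 < g₁ ∧ ∀ qv : ℝ, 0 < qv → 2 * (qv + (K + 6) * -vv) ≤ X →
      qv + φ + ε ≤ Sl r * -vv →
      Pool.AJX.JetX S₁ c 0 r (t + vv * q) t (lam * q) (qv * q) (φ * q) g₁ E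
        (fun i => L i (t + vv * q) (t + vv * q)) (fun i => L i t t)
        (nX r (fun l x => L l x x) (t + vv * q) (X * q))
        (fun l => aX r (X * q) l - (t - (t + vv * q)) - 2 * (φ * q)) rd K :=
  U.jetx hch R.q0 R.t1 (fun l hl => R.dOne (hl.trans hrm) (hκ l hl)) (R.dL r hrm) hGt hG hK hlam hε
    hm hρ hE

/-- **An earlier window** at which the own jets of a place of order above its slope are natural, with
room for `x` more digits at the window `v`. -/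
theorem RecG.hi
    (R : RecG S al g₀ P θ P₂ θ₂ Eb e₂ c Pt rt h K₀ g L T Sl κ G S₀ N A V S₂ N' V' K' ε q t)
    {i : ℕ} (hi : i < m) {v v₀ x σ : ℝ} (hv : |v - t| ≤ K' * q) (hv₀ : |v₀ - t| ≤ K' * q)
    (hvv : v₀ ≤ v) {j : ℕ} (hj : ⌊Sl i⌋₊ < j)
    (hx : x + σ + 2 * ε * q ≤ ((⌊Sl i⌋₊ : ℝ) + 1 - Sl i) * (v - v₀)) :
    L i v v + x + σ ≤ L i v₀ v₀ + (j : ℕ) * (v - v₀) := by
  have h1 := (abs_le.1 (R.dL i hi v hv)).2
  have h2 := (abs_le.1 (R.dL i hi v₀ hv₀)).1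
  have h3 : ((⌊Sl i⌋₊ : ℝ) + 1) ≤ j := by exact_mod_cast hj
  have h4 := mul_le_mul_of_nonneg_right h3 (sub_nonneg.2 hvv)
  linarith

/-- The same in units of the scale: `v = t + vv q`, `v₀ = t + (vv - d₀) q`. -/
theorem RecG.hi_q
    (R : RecG S al g₀ P θ P₂ θ₂ Eb e₂ c Pt rt h K₀ g L T Sl κ G S₀ N A V S₂ N' V' K' ε q t)
    {i : ℕ} (hi : i < m) {vv d₀ x σ : ℝ} (hvv : vv ≤ 0) (hd : 0 ≤ d₀) (hK : d₀ - vv ≤ K')
    {j : ℕ} (hj : ⌊Sl i⌋₊ < j) (hx : x + σ + 2 * ε ≤ ((⌊Sl i⌋₊ : ℝ) + 1 - Sl i) * d₀) :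
    L i (t + vv * q) (t + vv * q) + x * q + σ * q ≤
      L i (t + (vv - d₀) * q) (t + (vv - d₀) * q) +
        (j : ℕ) * (t + vv * q - (t + (vv - d₀) * q)) := by
  have hq := R.q0
  refine R.hi hi ?_ ?_ (by nlinarith) hj ?_
  · rw [add_sub_cancel_left, abs_mul, abs_of_pos hq, abs_of_nonpos hvv]
    exact mul_le_mul_of_nonneg_right (by linarith) hq.le
  · rw [add_sub_cancel_left, abs_mul, abs_of_pos hq, abs_of_nonpos (by linarith)]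
    exact mul_le_mul_of_nonneg_right (by linarith) hq.le
  · have h1 := mul_le_mul_of_nonneg_right hx hq.le
    have e1 : t + vv * q - (t + (vv - d₀) * q) = d₀ * q := by ring
    rw [e1]
    linarith

end

end Pool.PKG
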