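import Pool.Agent.H71.AVG.Far
import Pool.Agent.H71.AJX.Nsx

/-!
# All jets of the chain from its far digits, one earlier window for each place

`FarV`: as `FarW` of helper71, with an earlier window `v₀ i` for each place `i` of the chain (with one
window for all places the conditions contradict each other for two places of slope at least one).
`far_jetV`, `far_ctxV`: as `far_jetA`, `far_ctx`, the precisions `pf` of the labels of the far digits
free; `far_ctxX`: for labels with gradient exponents.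
-/

set_option autoImplicit false

namespace Pool.AJW

open Finset Real MvPolynomial
open Pool.Agent.H49.Ent Pool.Agent.H32.Dense Pool.STK Pool.KA Pool.KSAT Pool.K2S Pool.PB Pool.GEN
open Pool.S6C Pool.RCD Pool.LA91 Pool.OWN68 Pool.CHT
open Pool.GRD (LbP)
open Pool.UNJ (ceI Tub)
open Pool.AVG71 (cod cod_few)

section

variable {m : ℕ} {S : PCl m} {C₀ : ℝ} {α β γ : ∀ J : ℕ, Fam m J → Type} {U : Type}
  {f : ∀ (J : ℕ) (F : Fam m J), F.Ω → α J F}
  {g : ∀ (J : ℕ) (F : Fam m J), F.Ω → β J F} {y : ∀ (J : ℕ) (F : Fam m J), F.Ω → γ J F}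
  {Q : Qt m U} {c : ℕ → Fin m} {r₀ r R K : ℕ} {v a lam : ℝ} {rd p n : ℕ → ℝ} {e δ : ℝ}

/-- **All jets of the chain from the jets of order `0` and `1`**, if the others are natural at an
earlier window. -/
theorem jetA_onesV (htm : TmC S C₀) {σ u₁ e₁ : ℝ} {v₀ P₀ lv : ℕ → ℝ}
    (hch : Chn S c r₀ r v v u₁ p rd) (hrd : ∀ l, r₀ ≤ l → l < r → 0 ≤ rd l)
    (hva : v ≤ a) (ha : a ≤ 1) (hv0 : ∀ i, r₀ ≤ i → i < r → 0 ≤ v₀ i)
    (hvv : ∀ i, r₀ ≤ i → i < r → v₀ i ≤ v)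
    (hatt : ∀ i, r₀ ≤ i → i < r → ∃ rk : ℝ, 0 ≤ rk ∧
      Att S ((range i).image c) (c i) (v₀ i) (P₀ i) rk) (hσ : 0 < σ)
    (hlam : 0 < lam) (hl1 : v + lam ≤ 1)
    (hlv : ∀ l, r₀ ≤ l → l < r → 0 < lv l)
    (h1 : ∀ l, r₀ ≤ l → l < r → p l + lv l + σ ≤ n l)
    (h2 : ∀ l, r₀ ≤ l → l < r → n l + σ ≤ min (P₀ l) (p l) + lam)
    (h3 : ∀ i, r₀ ≤ i → i < r → ∀ l, r₀ ≤ l → l < i → n i + σ ≤ min (P₀ i) (p i) + lv l)
    (h4 : ∀ i, r₀ ≤ i → i < r → n i + σ ≤ P₀ i + 2 * (v - v₀ i))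
    (hf : ∀ (J : ℕ) (F : Fam m J), ∃ φ : α J F → PtT F, ∀ ω, ptr F J ω = φ (f J F ω))
    (hy : Kn ((range r₀).image c) (v + lam) lam y) (he₁ : 0 < e₁)
    (hV : ∀ η : ℝ, 0 < η → ∀ l, r₀ ≤ l → l < r → ∀ j ≤ 1, F1 S f (vg a) y Q
      (qJet m ((range l).image c) (c l) j v (p l) (n l - (j : ℕ) * v)) e₁ η) :
    JetA S f (vg a) y Q c r₀ r v p n (min e₁ (σ / 8)) := by
  have key : ∀ i ≤ r, ∀ η : ℝ, 0 < η → ∀ l, r₀ ≤ l → l < i → ∀ j : ℕ, F1 S f (vg a) y Q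
      (qJet m ((range l).image c) (c l) j v (p l) (n l - (j : ℕ) * v)) (min e₁ (σ / 8)) η := by
    intro i
    induction i with
    | zero => exact fun _ η _ l _ hl => absurd hl (Nat.not_lt_zero l)
    | succ i ih =>
      intro hi η hη l hl0 hl j
      have ih := ih (by omega)
      rcases Nat.lt_or_ge l i with h7 | h7
      · exact ih η hη l hl0 h7 j
      · obtain rfl : l = i := by omega
        by_cases hj : j ≤ 1
        · exact (hV η hη l hl0 (by omega) j hj).mono (min_le_left _ _) le_rfl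
        · obtain ⟨rk, hrk, hat⟩ := hatt l hl0 (by omega)
          have hs := hch.take hl0 (by omega : l ≤ r)
          have e1 := jet_hi (Q := Q) (N := n l - (j : ℕ) * v) (j := j) (η := η / 2) (h := η / 2)
            (e₁ := min e₁ (σ / 8)) htm hs hva ha (hv0 l hl0 (by omega)) (hvv l hl0 (by omega)) hrk hat hσ hlam hl1
            (fun l' x y => hlv l' x (by omega)) (fun l' x y => h1 l' x (by omega))
            (fun l' x y => by
              have g1 := h1 l' x (by omega)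
              have g2 := h2 l' x (by omega)
              have g3 : min (P₀ l') (p l') ≤ p l' := min_le_right _ _
              linarith)
            (fun l' x y l'' x' y' => by
              have g1 := h1 l' x (by omega)
              have g2 := h3 l' x (by omega) l'' x' y'
              have g3 : min (P₀ l') (p l') ≤ p l' := min_le_right _ _
              linarith)
            (by linarith [h2 l hl0 (by omega)]) (fun l' x y => by
              linarith [h3 l hl0 (by omega) l' x y])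
            (by
              have g1 := h4 l hl0 (by omega)
              have g2 : (2 : ℝ) ≤ j := by exact_mod_cast (by omega : 2 ≤ j)
              have g3 : 2 * (v - v₀ l) ≤ j * (v - v₀ l) :=
                mul_le_mul_of_nonneg_right g2 (by linarith [hvv l hl0 (by omega)])
              linarith) hf hy (lt_min he₁ (by linarith)) (half_pos hη)
            (exs_qjets fun i' x y j' _ => exs_jet (hrd i' x (by omega))
              (hch.att i' x (by omega)))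
            (F1.qjets' htm (half_pos hη) (fun η' hη' i' x y j' _ => ih η' hη' i' x y j'))
          rw [add_halves] at e1
          exact e1.mono (le_min le_rfl (min_le_right _ _)) le_rfl
  exact fun η hη l x y j => key r le_rfl η hη l x y j

end

/-- **The far digits** `Nf` over the labels of `w`, precisions `pf`, and the digits `n` over the
labels of `v`. -/
structure FarV {m : ℕ} (S : PCl m) (c : ℕ → Fin m) (r₀ r : ℕ) (v₀ : ℕ → ℝ) (v w lam σ : ℝ)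
    (P₀ p s pf n lv lw : ℕ → ℝ) (Nf : ℕ → ℕ → ℝ) : Prop where
  vn : 0 ≤ v
  v0 : ∀ i, r₀ ≤ i → i < r → 0 ≤ v₀ i
  vv : ∀ i, r₀ ≤ i → i < r → v₀ i ≤ v
  vw : v ≤ w
  σ0 : 0 < σ
  wl : w < v + lam
  l1 : v + lam ≤ 1
  cw : ∃ (u₁ : ℝ) (rw : ℕ → ℝ), Chn S c r₀ r w w u₁ s rw ∧ ∀ l, r₀ ≤ l → l < r → 0 ≤ rw l
  cv : ∃ (u₁ : ℝ) (rd : ℕ → ℝ), Chn S c r₀ r v v u₁ p rd ∧ ∀ l, r₀ ≤ l → l < r → 0 ≤ rd l
  a0 : ∀ i, r₀ ≤ i → i < r → ∃ rk : ℝ, 0 ≤ rk ∧ Att S ((range i).image c) (c i) (v₀ i) (P₀ i) rk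
  w0 : ∀ l, r₀ ≤ l → l < r → 0 < lw l
  w1 : ∀ l, r₀ ≤ l → l < r → ∀ j ≤ 1, s l + lw l + σ ≤ Nf l j + (j : ℕ) * w
  w2 : ∀ l, r₀ ≤ l → l < r → s l + lw l + σ ≤ min (pf l) (s l) + (v + lam - w)
  w3 : ∀ l, r₀ ≤ l → l < r → ∀ l', r₀ ≤ l' → l' < l →
    s l + lw l + σ ≤ min (pf l) (s l) + lw l'
  w4 : ∀ l, r₀ ≤ l → l < r → ∀ j ≤ 1, n l - (j : ℕ) * v ≤ Nf l j
  w5 : ∀ l, r₀ ≤ l → l < r → n l + (w - v) + σ ≤ min (pf l) (p l) + (v + lam - w)
  w6 : ∀ l, r₀ ≤ l → l < r → ∀ l', r₀ ≤ l' → l' < l →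
    n l + (w - v) + σ ≤ min (pf l) (p l) + lw l'
  lv0 : ∀ l, r₀ ≤ l → l < r → 0 < lv l
  h1 : ∀ l, r₀ ≤ l → l < r → p l + lv l + σ ≤ n l
  h2 : ∀ l, r₀ ≤ l → l < r → n l + σ ≤ min (P₀ l) (p l) + lam
  h3 : ∀ i, r₀ ≤ i → i < r → ∀ l, r₀ ≤ l → l < i → n i + σ ≤ min (P₀ i) (p i) + lv l
  h4 : ∀ i, r₀ ≤ i → i < r → n i + σ ≤ P₀ i + 2 * (v - v₀ i)

section

variable {m : ℕ} {S : PCl m} {C₀ : ℝ} {α γ : ∀ J : ℕ, Fam m J → Type}
  {f : ∀ (J : ℕ) (F : Fam m J), F.Ω → α J F} {y : ∀ (J : ℕ) (F : Fam m J), F.Ω → γ J F}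
  {c : ℕ → Fin m} {r₀ r : ℕ} {v w lam σ : ℝ} {v₀ P₀ p s pf n lv lw : ℕ → ℝ} {Nf : ℕ → ℕ → ℝ}

/-- **All jets of the chain over `v`** from the far digits over `w`. -/
theorem far_jetV (htm : TmC S C₀) (H : FarV S c r₀ r v₀ v w lam σ P₀ p s pf n lv lw Nf) {a : ℝ}
    (hwa : w ≤ a) (ha : a ≤ 1)
    (hf : ∀ (J : ℕ) (F : Fam m J), ∃ φ : α J F → PtT F, ∀ ω, ptr F J ω = φ (f J F ω))
    (hy : Kn ((range r₀).image c) (v + lam) lam y) :
    JetA S f (vg a) y (qJets m c r₀ r 1 (fun _ _ => w) (fun l _ => pf l) Nf) c r₀ r v p n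
      (σ / 8) := by
  obtain ⟨u₁, rw, hcw, hrw⟩ := H.cw
  obtain ⟨u₁', rd, hcv, hrd⟩ := H.cv
  have hσ := H.σ0
  have hvw := H.vw
  have hwl := H.wl
  have hlam : 0 < lam := by linarith
  have hmin : min lam (v + lam - w) = v + lam - w := min_eq_right (by linarith)
  have hones : ∀ η : ℝ, 0 < η → ∀ l, r₀ ≤ l → l < r → ∀ j ≤ 1, F1 S f (vg a) y
      (qJets m c r₀ r 1 (fun _ _ => w) (fun l _ => pf l) Nf)
      (qJet m ((range l).image c) (c l) j v (p l) (n l - (j : ℕ) * v)) (σ / 8) η := by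
    intro η hη l hl0 hl j hj
    have hj1 : (j : ℝ) ≤ 1 := by exact_mod_cast hj
    have hjw : (j : ℝ) * (w - v) ≤ 1 * (w - v) := mul_le_mul_of_nonneg_right hj1 (by linarith)
    have key := F1.up hwa ha (jetN_F1 (y := y) (f := f) htm (hcw.take hl0 hl.le) (k := c l)
      (j := j) (lv := lw) (p₀ := v + lam) (lam := lam) (σ₀ := σ) (w₁ := w) (w₂ := v) (p₁ := pf l)
      (p₂ := p l) (N₁ := Nf l j) (N₂ := n l - (j : ℕ) * v)
      (wv := fun _ _ => w) (pv := fun l _ => pf l) (Nv := Nf)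
      (fun _ _ _ _ _ => le_rfl) le_rfl hvw hwl H.l1 hlam hσ
      (fun i x y => H.w0 i x (by omega))
      (fun i x y j' hj' => H.w1 i x (by omega) j' (by omega))
      (fun i x y j' _ => by
        rw [hmin]
        exact H.w2 i x (by omega))
      (fun i x y j' _ l' x' y' => H.w3 i x (by omega) l' x' y')
      (H.w4 l hl0 hl j hj)
      (by
        rw [hmin]
        linarith [H.w5 l hl0 hl])
      (fun l' x y => by linarith [H.w6 l hl0 hl l' x y]) hf hy hη)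
    refine F1.pull htm (Q₁ := (qJets m c r₀ l j (fun _ _ => w) (fun l _ => pf l) Nf).prod
        (qJet m ((range l).image c) (c l) j w (pf l) (Nf l j)))
      (fun u => ((fun i' j' => if i' < l ∧ j' ≤ j then u i' j' else 0), u l j)) ?_ key
    intro K e J F A u hu
    refine ⟨⟨fun i' a b' j' c' => ?_, fun ω hω i' j' h' => ?_⟩, ?_⟩
    · have e1 := hu.1 i' a (b'.trans hl) j' (c'.trans hj)
      show (qJet m _ _ _ _ _ _).P K e J F A (fun ω => if i' < l ∧ j' ≤ j then u ω i' j' else 0)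
      simp only [if_pos (show i' < l ∧ j' ≤ j from ⟨b', c'⟩)]
      exact e1
    · show (if i' < l ∧ j' ≤ j then u ω i' j' else 0) = 0
      split_ifs with h3
      · exact hu.2 ω hω i' j' fun h4 => h' ⟨h4.1, h3.1, h3.2⟩
      · rfl
    · exact hu.1 l hl0 hl j hj
  have h5 := jetA_onesV (Q := qJets m c r₀ r 1 (fun _ _ => w) (fun l _ => pf l) Nf) (n := n)
    (f := f) (y := y) htm hcv hrd (hvw.trans hwa) ha H.v0 H.vv H.a0 hσ hlam H.l1
    H.lv0 H.h1 H.h2 H.h3 H.h4 hf hy (by positivity) hones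
  rwa [min_self] at h5

/-- **The context over `v`** from the far digits over `w`. -/
theorem far_ctxV (htm : TmC S C₀) (H : FarV S c r₀ r v₀ v w lam σ P₀ p s pf n lv lw Nf) {a : ℝ}
    (hwa : w ≤ a) (ha : a ≤ 1)
    (hf : ∀ (J : ℕ) (F : Fam m J), ∃ φ : α J F → PtT F, ∀ ω, ptr F J ω = φ (f J F ω))
    (hy : Kn ((range r₀).image c) (v + lam) lam y) {rd : ℕ → ℝ}
    (hrd : ∀ i, r₀ ≤ i → i < r → 0 ≤ rd i) {δ : ℝ} (hδ : 0 < δ) {K R : ℕ} (hR : r ≤ R) {e : ℝ}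
    (he : 0 < e) (hle : e ≤ σ / 8) :
    FwL S f (vg a) y (qJets m c r₀ r 1 (fun _ _ => w) (fun l _ => pf l) Nf) c r₀ R K v rd p
      (ctx c r₀ r K v lam n) e δ := by
  have hwl := H.wl
  have hvw := H.vw
  exact (far_jetV htm H hwa ha hf hy).ctx htm H.vn (hvw.trans hwa) ha
    (by linarith) (by linarith [H.σ0]) hrd hy hδ hR he hle

/-- **The context over `v`** from all jets of the chain, labels with gradient exponents. -/
theorem JetA.ctxX {U : Type} {Q : Qt m U} {a e δ : ℝ}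
    {E rd : ℕ → ℝ} {R K : ℕ} (htm : TmC S C₀) (h : JetA S f (vg a) y Q c r₀ r v p n e)
    (hE : ∀ i, r₀ ≤ i → i < r → E i ≤ 1) (hv0 : 0 ≤ v) (hva : v ≤ a) (ha : a ≤ 1)
    (hlam : 0 ≤ lam) (hrd : ∀ i, r₀ ≤ i → i < r → 0 ≤ rd i)
    (hy : Kn ((range r₀).image c) (v + lam) lam y) (hδ : 0 < δ) (hR : r ≤ R) {e' : ℝ}
    (he' : 0 < e') (hle : e' ≤ e) :
    Pool.AJX.FwX S f (vg a) y Q c r₀ R K E v rd p (Pool.AJW.ctx c r₀ r K v lam n) e' δ := fun K₀ => by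
  have h1 : (0 : ℝ) < ((r * (K + 3) : ℕ) : ℝ) + 1 := by positivity
  obtain ⟨η, hη⟩ : ∃ η : ℝ, η = δ / 2 / (((r * (K + 3) : ℕ) : ℝ) + 1) := ⟨_, rfl⟩
  have hη0 : 0 < η := by rw [hη]; positivity
  have hηe : η * (((r * (K + 3) : ℕ) : ℝ) + 1) = δ / 2 := by
    rw [hη]
    field_simp
  refine Pool.AJX.ctxK_few htm (Q := Q) (f := f) hE hv0 hva ha hlam he' hrd hy K
    (δ₁ := δ / 2) (η := fun _ _ => η) ?_
    (fun l x y' j _ => (h η hη0 l x y' j).mono hle le_rfl) (by linarith) K₀ R hR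
  rw [Finset.sum_const, Finset.sum_const, Finset.card_range, Nat.card_Ico, nsmul_eq_mul,
    nsmul_eq_mul, ← mul_assoc]
  have h2 : (((r - r₀ : ℕ) : ℝ) * ((K + 3 : ℕ) : ℝ)) ≤ ((r * (K + 3) : ℕ) : ℝ) := by
    exact_mod_cast Nat.mul_le_mul_right (K + 3) (Nat.sub_le r r₀)
  nlinarith

/-- **The context over `v`** from the far digits over `w`, labels with gradient exponents. -/
theorem far_ctxX (htm : TmC S C₀) (H : FarV S c r₀ r v₀ v w lam σ P₀ p s pf n lv lw Nf) {a : ℝ}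
    (hwa : w ≤ a) (ha : a ≤ 1)
    (hf : ∀ (J : ℕ) (F : Fam m J), ∃ φ : α J F → PtT F, ∀ ω, ptr F J ω = φ (f J F ω))
    (hy : Kn ((range r₀).image c) (v + lam) lam y) {E rd : ℕ → ℝ}
    (hE : ∀ i, r₀ ≤ i → i < r → E i ≤ 1)
    (hrd : ∀ i, r₀ ≤ i → i < r → 0 ≤ rd i) {δ : ℝ} (hδ : 0 < δ) {K R : ℕ} (hR : r ≤ R) {e : ℝ}
    (he : 0 < e) (hle : e ≤ σ / 8) :
    Pool.AJX.FwX S f (vg a) y (qJets m c r₀ r 1 (fun _ _ => w) (fun l _ => pf l) Nf) c r₀ R K E v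
      rd p (ctx c r₀ r K v lam n) e δ := by
  have hwl := H.wl
  have hvw := H.vw
  exact (far_jetV htm H hwa ha hf hy).ctxX htm hE H.vn (hvw.trans hwa) ha
    (by linarith) hrd hy hδ hR he hle

end


end Pool.AJW
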