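import Pool.Agent.H5.PN.Fav
import Pool.Agent.H71.AJX.Jwx
import Pool.Agent.H91.FR.HtG

/-!
# Two windows and the far digits, from the chain at the windows of a set

`far_of`, `jetx_of`: the data `FarV` and `JetX` for the windows `v < w` and the earlier windows
`v₀ i`, with the same digits `n`, from `ChG` (a chain of slopes one and one more place).
-/

set_option autoImplicit false

namespace Pool.AJW

open Finset Real MvPolynomial
open Pool.Agent.H49.Ent Pool.Agent.H32.Dense Pool.STK Pool.KA Pool.KSAT Pool.K2S Pool.PB Pool.GEN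
open Pool.S6C Pool.RCD Pool.LA91 Pool.OWN68 Pool.CHT

/-- The digits of the place `i` behind the natural ones at the window `v`. -/
noncomputable def aX (r : ℕ) (X : ℝ) (i : ℕ) : ℝ := 3 ^ (r - 1 - i) * X

theorem aX_ge {r : ℕ} {X : ℝ} (hX : 0 ≤ X) (i : ℕ) : X ≤ aX r X i := by
  unfold aX
  have h1 : (1 : ℝ) ≤ 3 ^ (r - 1 - i) := one_le_pow₀ (by norm_num)
  nlinarith

theorem aX_nest {r : ℕ} {X : ℝ} (hX : 0 ≤ X) {l i : ℕ} (hl : l < i) (hi : i < r) :
    3 * aX r X i ≤ aX r X l := by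
  unfold aX
  have e1 : (3 : ℝ) * (3 ^ (r - 1 - i) * X) = 3 ^ (r - 1 - i + 1) * X := by ring
  rw [e1]
  refine mul_le_mul_of_nonneg_right ?_ hX
  exact pow_le_pow_right₀ (by norm_num) (by omega)

theorem aX_le {r : ℕ} {X : ℝ} (hX : 0 ≤ X) {i : ℕ} (hi : i < r) : 3 * aX r X i ≤ 3 ^ r * X := by
  unfold aX
  have e1 : (3 : ℝ) * (3 ^ (r - 1 - i) * X) = 3 ^ (r - 1 - i + 1) * X := by ring
  rw [e1]
  refine mul_le_mul_of_nonneg_right ?_ hX
  exact pow_le_pow_right₀ (by norm_num) (by omega)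

/-- The numbers of the windows `v < w` and `v₀ i`. -/
structure JfN (r : ℕ) (sn : ℕ → ℝ → ℝ) (G : Set ℝ) (v w X φ lam kf : ℝ) (v₀ : ℕ → ℝ)
    (K : ℕ) : Prop where
  vG : v ∈ G
  wG : w ∈ G
  vw : v < w
  φ0 : 0 < φ
  XK : 2 * ((K + 6) * (w - v)) ≤ X
  φX : 32 * (r + 1) * φ ≤ X
  kfX : 3 ^ r * X ≤ kf
  lamk : kf + (w - v) ≤ lam
  l1 : v + lam < 1
  fl : ∀ i < r, |sn i w - sn i v - (w - v)| ≤ φ
  v₀G : ∀ i < r, v₀ i ∈ G ∧ v - 3 / 2 * aX r X i ≤ v₀ i ∧ v₀ i ≤ v - 9 / 8 * aX r X i ∧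
    |sn i v - sn i (v₀ i) - (v - v₀ i)| ≤ φ

section

variable {m : ℕ} {S : PCl m} {c : ℕ → Fin m} {r : ℕ} {sn : ℕ → ℝ → ℝ} {G : Set ℝ}
  {v w q X φ lam kf : ℝ} {v₀ pf : ℕ → ℝ} {Nf : ℕ → ℕ → ℝ} {K : ℕ}

/-- The digits of the own path of the place `i` at the window `v`. -/
noncomputable def nX (r : ℕ) (sn : ℕ → ℝ → ℝ) (v X : ℝ) (i : ℕ) : ℝ := sn i v + aX r X i

/-- **The far digits**, from the chain at the windows of a set. -/
theorem far_of (hch : ChG S c (r + 1) sn G) (H : JfN r sn G v w X φ lam kf v₀ K)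
    (hpf : ∀ l < r, sn l w - φ ≤ pf l)
    (hNf : ∀ l < r, ∀ j ≤ 1, sn l w + kf - φ ≤ Nf l j + (j : ℕ) * w) :
    FarV S c 0 r v₀ v w lam φ (fun i => sn i (v₀ i)) (fun i => sn i v) (fun i => sn i w) pf
      (nX r sn v X) (fun l => aX r X l - 2 * φ) (fun l => kf - 2 * (l + 1) * φ) Nf := by
  obtain ⟨uv, rv, hrv, hcv⟩ := hch.ch v H.vG
  obtain ⟨uw, rw, hrw, hcw⟩ := hch.ch w H.wG
  have hvw := H.vw
  have hφ := H.φ0
  have hX := H.XK
  have hφX := H.φX
  have hkf := H.kfX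
  have hlam := H.lamk
  have hl1 := H.l1
  have hKD : 0 ≤ (K : ℝ) * (w - v) := mul_nonneg (Nat.cast_nonneg K) (by linarith)
  have hXD : 12 * (w - v) ≤ X := by nlinarith
  have hX0 : 0 ≤ X := by linarith
  have hrφ : 0 ≤ (r : ℝ) * φ := mul_nonneg (Nat.cast_nonneg r) hφ.le
  have hX1 : 32 * φ ≤ X := by nlinarith
  have hXk : X ≤ kf := by
    have h1 : (1 : ℝ) ≤ 3 ^ r := one_le_pow₀ (by norm_num)
    nlinarith
  have hlr : ∀ l < r, 2 * ((l : ℝ) + 1) * φ ≤ X / 16 := fun l hl => by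
    have h1 : (l : ℝ) + 1 ≤ r := by exact_mod_cast hl
    have h2 : ((l : ℝ) + 1) * φ ≤ r * φ := mul_le_mul_of_nonneg_right h1 hφ.le
    nlinarith
  have ha : ∀ l < r, X ≤ aX r X l := fun l _ => aX_ge hX0 l
  have hak : ∀ l < r, 3 * aX r X l ≤ kf := fun l hl => (aX_le hX0 hl).trans hkf
  have hfl : ∀ i < r, sn i v + (w - v) - φ ≤ sn i w ∧ sn i w ≤ sn i v + (w - v) + φ :=
    fun i hi => by
      have := abs_le.1 (H.fl i hi)
      exact ⟨by linarith [this.1], by linarith [this.2]⟩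
  have hfv : ∀ i < r, sn i v - (v - v₀ i) - φ ≤ sn i (v₀ i) := fun i hi => by
    have := abs_le.1 (H.v₀G i hi).2.2.2
    linarith [this.2]
  have hv0 : ∀ i < r, v - 3 / 2 * aX r X i ≤ v₀ i ∧ v₀ i ≤ v - 9 / 8 * aX r X i :=
    fun i hi => ⟨(H.v₀G i hi).2.1, (H.v₀G i hi).2.2.1⟩
  have hms : ∀ i < r, sn i w - φ ≤ min (pf i) (sn i w) := fun i hi =>
    le_min (hpf i hi) (by linarith)
  have hmn : ∀ i < r, sn i v - 2 * φ ≤ min (pf i) (sn i v) := fun i hi =>
    le_min (by linarith [(hfl i hi).1, hpf i hi]) (by linarith)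
  have hmv : ∀ i < r, sn i v - (v - v₀ i) - φ ≤ min (sn i (v₀ i)) (sn i v) := fun i hi =>
    le_min (hfv i hi) (by linarith [(hv0 i hi).2, ha i hi])
  refine
    { vn := hcv.w0
      v0 := fun i _ hi => ?_
      vv := fun i _ hi => by linarith [(hv0 i hi).2, ha i hi]
      vw := hvw.le
      σ0 := hφ
      wl := by linarith
      l1 := hl1.le
      cw := ⟨uw, rw, hcw.take (Nat.zero_le _) (Nat.le_succ r), fun l _ hl => hrw l (by omega)⟩
      cv := ⟨uv, rv, hcv.take (Nat.zero_le _) (Nat.le_succ r), fun l _ hl => hrv l (by omega)⟩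
      a0 := fun i _ hi => ?_
      w0 := fun l _ hl => by linarith [hlr l hl]
      w1 := fun l _ hl j hj => ?_
      w2 := fun l _ hl => ?_
      w3 := fun l _ hl l' _ hl' => ?_
      w4 := fun l _ hl j hj => ?_
      w5 := fun l _ hl => ?_
      w6 := fun l _ hl l' _ hl' => ?_
      lv0 := fun l _ hl => by linarith [ha l hl]
      h1 := fun l _ hl => ?_
      h2 := fun l _ hl => ?_
      h3 := fun i _ hi l _ hl => ?_
      h4 := fun i _ hi => ?_ }
  · obtain ⟨u', r', -, hc'⟩ := hch.ch (v₀ i) (H.v₀G i hi).1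
    exact hc'.w0
  · obtain ⟨u', r', hr', hc'⟩ := hch.ch (v₀ i) (H.v₀G i hi).1
    exact ⟨r' i, hr' i (by omega), hc'.att i (Nat.zero_le _) (by omega)⟩
  · have h1 : (0 : ℝ) ≤ (l : ℝ) * φ := mul_nonneg (Nat.cast_nonneg l) hφ.le
    have h2 := hNf l hl j hj
    linarith
  · have h1 : (0 : ℝ) ≤ (l : ℝ) * φ := mul_nonneg (Nat.cast_nonneg l) hφ.le
    have h2 := hms l hl
    show sn l w + (kf - 2 * ((l : ℝ) + 1) * φ) + φ ≤ min (pf l) (sn l w) + (v + lam - w)
    linarith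
  · have h1 : (l' : ℝ) + 1 ≤ l := by exact_mod_cast hl'
    have h2 : ((l' : ℝ) + 1) * φ ≤ l * φ := mul_le_mul_of_nonneg_right h1 hφ.le
    have h3 := hms l hl
    show sn l w + (kf - 2 * ((l : ℝ) + 1) * φ) + φ ≤
      min (pf l) (sn l w) + (kf - 2 * ((l' : ℝ) + 1) * φ)
    linarith
  · have h1 := hak l hl
    have h2 := ha l hl
    have h3 := (hfl l hl).1
    have h4 := hNf l hl j hj
    unfold nX
    rcases Nat.le_one_iff_eq_zero_or_eq_one.1 hj with rfl | rfl
    · simp only [Nat.cast_zero, zero_mul, sub_zero, add_zero] at h4 ⊢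
      linarith
    · simp only [Nat.cast_one, one_mul] at h4 ⊢
      linarith
  · have h1 := hak l hl
    have h2 := ha l hl
    have h3 := hmn l hl
    show nX r sn v X l + (w - v) + φ ≤ min (pf l) (sn l v) + (v + lam - w)
    unfold nX
    linarith
  · have h1 := hak l hl
    have h2 := ha l hl
    have h3 := hmn l hl
    have h4 := hlr l' (by omega)
    show nX r sn v X l + (w - v) + φ ≤ min (pf l) (sn l v) + (kf - 2 * ((l' : ℝ) + 1) * φ)
    unfold nX
    linarith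
  · show sn l v + (aX r X l - 2 * φ) + φ ≤ nX r sn v X l
    unfold nX
    linarith
  · have h1 := hak l hl
    have h2 := ha l hl
    have h3 := hmv l hl
    have h4 := hv0 l hl
    show nX r sn v X l + φ ≤ min (sn l (v₀ l)) (sn l v) + lam
    unfold nX
    linarith [h4.1]
  · have h1 := aX_nest hX0 hl hi
    have h2 := ha i hi
    have h3 := hmv i hi
    have h4 := hv0 i hi
    show nX r sn v X i + φ ≤ min (sn i (v₀ i)) (sn i v) + (aX r X l - 2 * φ)
    unfold nX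
    linarith [h4.1]
  · have h2 := ha i hi
    have h3 := hfv i hi
    have h4 := hv0 i hi
    show nX r sn v X i + φ ≤ sn i (v₀ i) + 2 * (v - v₀ i)
    unfold nX
    linarith [h4.2]

/-- **The two windows**, from the chain at the windows of a set, for labels with exponents `E` of the
gradients and `rd` of the radii, for any height `q` of the own path with room in the place `r`. -/
theorem jetx_of (hch : ChG S c (r + 1) sn G) (H : JfN r sn G v w X φ lam kf v₀ K) {E rd : ℕ → ℝ}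
    {m₁ g₀ : ℝ} (hg : 0 < g₀) (hm : 3 ^ r * X + g₀ ≤ m₁)
    (hE : ∀ i ≤ r, 0 ≤ E i ∧ sn i v + E i + m₁ ≤ 1) (hrd : ∀ i ≤ r, 0 ≤ rd i ∧ rd i + g₀ ≤ 1)
    (hq : 0 < q) (hqX : 2 * (q + (K + 6) * (w - v)) ≤ X) (hval : sn r v + q + φ ≤ sn r w) :
    Pool.AJX.JetX S c 0 r v w lam q φ g₀ E (fun i => sn i v) (fun i => sn i w) (nX r sn v X)
      (fun l => aX r X l - (w - v) - 2 * φ) rd K := by
  obtain ⟨uv, rv, hrv, hcv⟩ := hch.ch v H.vG
  obtain ⟨uw, rw, hrw, hcw⟩ := hch.ch w H.wG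
  have hvw := H.vw
  have hφ := H.φ0
  have hX := H.XK
  have hφX := H.φX
  have hkf := H.kfX
  have hlam := H.lamk
  have hl1 := H.l1
  have hKD : 0 ≤ (K : ℝ) * (w - v) := mul_nonneg (Nat.cast_nonneg K) (by linarith)
  have hXD : 12 * (w - v) ≤ X := by nlinarith
  have hX0 : 0 ≤ X := by linarith
  have hrφ : 0 ≤ (r : ℝ) * φ := mul_nonneg (Nat.cast_nonneg r) hφ.le
  have hX1 : 32 * φ ≤ X := by nlinarith
  have hX3 : X ≤ 3 ^ r * X := by
    have h1 : (1 : ℝ) ≤ 3 ^ r := one_le_pow₀ (by norm_num)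
    nlinarith
  have ha : ∀ l < r, X ≤ aX r X l := fun l _ => aX_ge hX0 l
  have ha3 : ∀ l < r, 3 * aX r X l ≤ 3 ^ r * X := fun l hl => aX_le hX0 hl
  have hak : ∀ l < r, 3 * aX r X l ≤ kf := fun l hl => (aX_le hX0 hl).trans hkf
  have hfl : ∀ i < r, sn i v + (w - v) - φ ≤ sn i w ∧ sn i w ≤ sn i v + (w - v) + φ :=
    fun i hi => by
      have := abs_le.1 (H.fl i hi)
      exact ⟨by linarith [this.1], by linarith [this.2]⟩
  have hmn : ∀ i < r, sn i v - φ ≤ min (sn i v) (sn i w) := fun i hi =>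
    le_min (by linarith) (by linarith [(hfl i hi).1])
  have hsv : ∀ i ≤ r, 0 ≤ sn i v := fun i hi => (hcv.s0 i (Nat.zero_le _) (by omega)).1
  refine
    { hr := Nat.zero_le _
      v0 := hcv.w0
      vw := hvw.le
      ρ0 := hφ
      g0 := hg
      q0 := hq
      l1 := hl1
      p0 := hsv r le_rfl
      E0 := fun i _ hi => ⟨(hE i hi).1, ?_⟩
      pq := ?_
      chn := ⟨uw, rw, hcw.take (Nat.zero_le _) (Nat.le_succ r)⟩
      exs := fun N => exs_jet (hrw r (by omega)) (hcw.att r (Nat.zero_le _) (by omega))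
      rd0 := fun i _ hi => hrd i hi
      n1 := fun i _ hi => ?_
      val := hval
      lv0 := fun l _ hl => by linarith [ha l hl]
      dig := fun l _ hl => ?_
      nst := fun i _ hi l _ hl => ?_
      bas := fun i _ hi => ?_
      top := fun l _ hl => ?_
      topb := ?_ }
  · linarith [(hE i hi).2, hsv i hi]
  · show sn r v + q + E r + g₀ ≤ 1
    linarith [(hE r le_rfl).2]
  · show nX r sn v X i + E i + g₀ ≤ 1
    unfold nX
    linarith [(hE i hi.le).2, ha i hi, ha3 i hi]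
  · have h1 := (hfl l hl).2
    show sn l w + (aX r X l - (w - v) - 2 * φ) + φ ≤ nX r sn v X l
    unfold nX
    linarith
  · have h1 := (hfl i hi).2
    have h2 := hmn i hi
    have h3 := aX_nest hX0 hl hi
    have h4 := ha i hi
    show sn i w + (aX r X i - (w - v) - 2 * φ) + φ ≤ min (sn i v) (sn i w) +
      (aX r X l - (w - v) - 2 * φ)
    linarith
  · have h1 := (hfl i hi).2
    have h2 := hmn i hi
    have h3 := hak i hi
    have h4 := ha i hi
    show sn i w + (aX r X i - (w - v) - 2 * φ) + φ ≤ min (sn i v) (sn i w) + (v + lam - w)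
    linarith
  · have h1 := ha l hl
    show q + (K + 2) * (w - v) + φ ≤ aX r X l - (w - v) - 2 * φ
    nlinarith
  · nlinarith

end

end Pool.AJW
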