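import Pool.Agent.H5.PN.Jfc

/-!
# The two windows at the scale of a record

`JfU`: the numbers in units of the scale `q`; `jfV`: the windows; `JfU.jf`: the numbers `JfN` from
nearly affine levels; `JfU.far`, `JfU.jetx`: `FarV` and `JetX` for the windows `t + vv q < t`.
-/

set_option autoImplicit false

namespace Pool.AJW

open Finset Real MvPolynomial
open Pool.Agent.H49.Ent Pool.Agent.H32.Dense Pool.STK Pool.KA Pool.KSAT Pool.K2S Pool.PB Pool.GEN
open Pool.S6C Pool.RCD Pool.LA91 Pool.OWN68 Pool.CHT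

theorem aX_mul (r : ℕ) (X q : ℝ) (i : ℕ) : aX r (X * q) i = aX r X i * q := by
  unfold aX
  ring

/-- **The windows**, in units of the scale: the window `v`, and the earlier ones of the places. -/
noncomputable def jfV (r : ℕ) (vv X : ℝ) (k : ℕ) : ℝ :=
  if k = 0 then vv else vv - 5 / 4 * aX r X (k - 1)

theorem jfV_zero (r : ℕ) (vv X : ℝ) : jfV r vv X 0 = vv := by simp [jfV]

theorem jfV_succ (r : ℕ) (vv X : ℝ) (i : ℕ) : jfV r vv X (i + 1) = vv - 5 / 4 * aX r X i := by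
  simp [jfV]

theorem jfV_mem {r : ℕ} {vv X : ℝ} (hv : vv ≤ 0) (hX : 0 ≤ X) {k : ℕ} (hk : k ≤ r) :
    vv - 3 ^ r * X ≤ jfV r vv X k ∧ jfV r vv X k ≤ 0 := by
  rcases Nat.eq_zero_or_pos k with rfl | h1
  · rw [jfV_zero]
    exact ⟨by have : 0 ≤ 3 ^ r * X := by positivity
              linarith, hv⟩
  · obtain ⟨i, rfl⟩ : ∃ i, k = i + 1 := ⟨k - 1, by omega⟩
    rw [jfV_succ]
    have h2 := aX_le hX (show i < r by omega)
    have h3 := aX_ge (r := r) hX i
    constructor <;> linarith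

/-- **The numbers of the two windows**, in units of the scale. -/
structure JfU (r K : ℕ) (vv X φ lam kf : ℝ) : Prop where
  vv0 : vv < 0
  φ0 : 0 < φ
  XK : 2 * ((K + 6) * -vv) ≤ X
  φX : 32 * (r + 1) * φ ≤ X
  kfX : 3 ^ r * X ≤ kf
  lamk : kf - vv ≤ lam

section

variable {m : ℕ} {S : PCl m} {c : ℕ → Fin m} {r K : ℕ} {G : Set ℝ} {L : ℕ → ℝ → ℝ → ℝ}
  {vv X φ lam kf K' ε q t : ℝ} {Sl : ℕ → ℝ}

theorem JfU.X0 (U : JfU r K vv X φ lam kf) : 0 < X := by
  have h1 := U.φX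
  have h2 := U.φ0
  have h3 : 0 ≤ (r : ℝ) * φ := mul_nonneg (Nat.cast_nonneg r) h2.le
  nlinarith

theorem JfU.jf (U : JfU r K vv X φ lam kf) (hq : 0 < q) (ht1 : t + K' * q < 1)
    (hdL : ∀ l < r, ∀ x : ℝ, |x - t| ≤ K' * q → |L l x x - L l t t - (x - t)| ≤ ε * q)
    (hGt : t ∈ G) (hG : ∀ k ≤ r, t + jfV r vv X k * q ∈ G) (hK : -vv + 3 ^ r * X ≤ K')
    (hlam : lam ≤ K') (hε : 2 * ε ≤ φ) :
    JfN r (fun l x => L l x x) G (t + vv * q) t (X * q) (φ * q) (lam * q) (kf * q)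
      (fun i => t + jfV r vv X (i + 1) * q) K := by
  have hX0 := U.X0
  have hvv := U.vv0
  have hφ := U.φ0
  have hXq : 0 < X * q := mul_pos hX0 hq
  have hnear : ∀ k ≤ r, |t + jfV r vv X k * q - t| ≤ K' * q := by
    intro k hk
    obtain ⟨h1, h2⟩ := jfV_mem hvv.le hX0.le hk
    rw [add_sub_cancel_left, abs_mul, abs_of_pos hq]
    refine mul_le_mul_of_nonneg_right ?_ hq.le
    rw [abs_of_nonpos h2]
    linarith
  have hd2 : ∀ i < r, ∀ x y : ℝ, |x - t| ≤ K' * q → |y - t| ≤ K' * q →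
      |L i y y - L i x x - (y - x)| ≤ φ * q := by
    intro i hi x y hx hy
    have h1 := abs_le.1 (hdL i hi x hx)
    have h2 := abs_le.1 (hdL i hi y hy)
    have h3 : 2 * ε * q ≤ φ * q := mul_le_mul_of_nonneg_right hε hq.le
    rw [abs_le]
    constructor <;> linarith [h1.1, h1.2, h2.1, h2.2]
  have hv : |t + vv * q - t| ≤ K' * q := by
    have := hnear 0 (Nat.zero_le r)
    rwa [jfV_zero] at this
  have hK0 : 0 ≤ K' * q := (abs_nonneg _).trans hv
  have htt : |t - t| ≤ K' * q := by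
    rw [sub_self, abs_zero]
    exact hK0
  refine
    { vG := by
        have := hG 0 (Nat.zero_le r)
        rwa [jfV_zero] at this
      wG := hGt
      vw := by nlinarith
      φ0 := mul_pos hφ hq
      XK := ?_
      φX := ?_
      kfX := ?_
      lamk := ?_
      l1 := ?_
      fl := fun i hi => hd2 i hi _ _ hv htt
      v₀G := fun i hi => ⟨hG (i + 1) (by omega), ?_, ?_, hd2 i hi _ _ (hnear (i + 1) (by omega)) hv⟩ }
  · have h1 := mul_le_mul_of_nonneg_right U.XK hq.le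
    have e1 : 2 * (((K : ℝ) + 6) * (t - (t + vv * q))) = 2 * ((K + 6) * -vv) * q := by ring
    rw [e1]
    exact h1
  · have h1 := mul_le_mul_of_nonneg_right U.φX hq.le
    linarith
  · have h1 := mul_le_mul_of_nonneg_right U.kfX hq.le
    linarith
  · have h1 := mul_le_mul_of_nonneg_right U.lamk hq.le
    linarith
  · have h1 := mul_le_mul_of_nonneg_right hlam hq.le
    nlinarith
  · have h1 := aX_ge (r := r) hXq.le i
    have e1 : t + jfV r vv X (i + 1) * q = t + vv * q - 5 / 4 * aX r (X * q) i := by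
      rw [jfV_succ, aX_mul]
      ring
    rw [e1]
    linarith
  · have h1 := aX_ge (r := r) hXq.le i
    have e1 : t + jfV r vv X (i + 1) * q = t + vv * q - 5 / 4 * aX r (X * q) i := by
      rw [jfV_succ, aX_mul]
      ring
    rw [e1]
    linarith

/-- **The far digits** at the scale of a record. -/
theorem JfU.far (U : JfU r K vv X φ lam kf) (hch : ChG S c (r + 1) (fun l x => L l x x) G)
    (hq : 0 < q) (ht1 : t + K' * q < 1)
    (hdL : ∀ l < r, ∀ x : ℝ, |x - t| ≤ K' * q → |L l x x - L l t t - (x - t)| ≤ ε * q)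
    (hGt : t ∈ G) (hG : ∀ k ≤ r, t + jfV r vv X k * q ∈ G) (hK : -vv + 3 ^ r * X ≤ K')
    (hlam : lam ≤ K') (hε : 2 * ε ≤ φ) {pf : ℕ → ℝ} (hpf : ∀ l < r, L l t t - φ * q ≤ pf l) :
    FarV S c 0 r (fun i => t + jfV r vv X (i + 1) * q) (t + vv * q) t (lam * q) (φ * q)
      (fun i => L i (t + jfV r vv X (i + 1) * q) (t + jfV r vv X (i + 1) * q))
      (fun i => L i (t + vv * q) (t + vv * q)) (fun i => L i t t) pf
      (nX r (fun l x => L l x x) (t + vv * q) (X * q)) (fun l => aX r (X * q) l - 2 * (φ * q))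
      (fun l => kf * q - 2 * (l + 1) * (φ * q)) (fun l j => L l t t + kf * q - (j : ℕ) * t) :=
  far_of hch (U.jf hq ht1 hdL hGt hG hK hlam hε) hpf fun l _ j _ => by
    show L l t t + kf * q - φ * q ≤ L l t t + kf * q - (j : ℕ) * t + (j : ℕ) * t
    nlinarith [mul_pos U.φ0 hq]

/-- **The two windows** at the scale of a record, for labels with exponents `E` of the gradients and
`rd` of the radii. -/
theorem JfU.jetx (U : JfU r K vv X φ lam kf) (hch : ChG S c (r + 1) (fun l x => L l x x) G)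
    (hq : 0 < q) (ht1 : t + K' * q < 1)
    (hdL : ∀ l < r, ∀ x : ℝ, |x - t| ≤ K' * q → |L l x x - L l t t - (x - t)| ≤ ε * q)
    (hdr : ∀ x : ℝ, |x - t| ≤ K' * q → |L r x x - L r t t - Sl r * (x - t)| ≤ ε * q)
    (hGt : t ∈ G) (hG : ∀ k ≤ r, t + jfV r vv X k * q ∈ G) (hK : -vv + 3 ^ r * X ≤ K')
    (hlam : lam ≤ K') (hε : 2 * ε ≤ φ) {m₁ ρ : ℝ} {E rd : ℕ → ℝ} (hm : 3 ^ r * X * q < m₁)
    (hρ : ρ < 1) (hE : ∀ i ≤ r, 0 ≤ E i ∧ L i (t + vv * q) (t + vv * q) + E i + m₁ ≤ 1 ∧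
      0 ≤ rd i ∧ rd i ≤ ρ) :
    ∃ g₀ : ℝ, 0 < g₀ ∧ ∀ qv : ℝ, 0 < qv → 2 * (qv + (K + 6) * -vv) ≤ X →
      qv + φ + ε ≤ Sl r * -vv →
      Pool.AJX.JetX S c 0 r (t + vv * q) t (lam * q) (qv * q) (φ * q) g₀ E
        (fun i => L i (t + vv * q) (t + vv * q)) (fun i => L i t t)
        (nX r (fun l x => L l x x) (t + vv * q) (X * q))
        (fun l => aX r (X * q) l - (t - (t + vv * q)) - 2 * (φ * q)) rd K := by
  refine ⟨min (1 - ρ) (m₁ - 3 ^ r * X * q), lt_min (by linarith) (by linarith), ?_⟩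
  intro qv hqv hqX hval
  have g1 := min_le_left (1 - ρ) (m₁ - 3 ^ r * X * q)
  have g2 := min_le_right (1 - ρ) (m₁ - 3 ^ r * X * q)
  have hvt : |t + vv * q - t| ≤ K' * q := by
    rw [add_sub_cancel_left, abs_mul, abs_of_pos hq, abs_of_neg U.vv0]
    refine mul_le_mul_of_nonneg_right ?_ hq.le
    have : 0 ≤ 3 ^ r * X := mul_nonneg (by positivity) U.X0.le
    linarith
  refine jetx_of hch (U.jf hq ht1 hdL hGt hG hK hlam hε) (m₁ := m₁)
    (lt_min (by linarith) (by linarith)) (by linarith)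
    (fun i hi => ⟨(hE i hi).1, (hE i hi).2.1⟩) (fun i hi => ⟨(hE i hi).2.2.1, by
      linarith [(hE i hi).2.2.2]⟩) (mul_pos hqv hq) ?_ ?_
  · have h1 := mul_le_mul_of_nonneg_right hqX hq.le
    have e1 : 2 * (qv * q + ((K : ℝ) + 6) * (t - (t + vv * q))) =
      2 * (qv + (K + 6) * -vv) * q := by ring
    rw [e1]
    exact h1
  · have h1 := (abs_le.1 (hdr _ hvt)).2
    have h2 := mul_le_mul_of_nonneg_right hval hq.le
    have e1 : Sl r * (t + vv * q - t) = -(Sl r * -vv * q) := by ring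
    rw [e1] at h1
    show L r (t + vv * q) (t + vv * q) + qv * q + φ * q ≤ L r t t
    linarith

end

end Pool.AJW
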